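import Mathlib

set_option autoImplicit false

universe u

namespace Pool.Agent.Results.MP_811a2c_al.CoherentOvermonoid

open MulOpposite Relation

/-!
# A right coherent monoid containing a monoid `S(M)` that is neither left nor right coherent

Left acts of a monoid `S` are types with `MulAction S`; right acts of `S` are left acts of the
opposite monoid `Sᵐᵒᵖ`.
-/

section Defs

/-- One elementary step in the free left `S`-act `Fin n × S` (with `w (i, s) = (i, w s)`): from
`w p` to `w q`, where `(p, q)` is a pair of `R`. -/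
def Step {S : Type u} [Monoid S] {n : ℕ} (R : Set ((Fin n × S) × (Fin n × S)))
    (p q : Fin n × S) : Prop :=
  ∃ r ∈ R, ∃ w : S, p = (r.1.1, w * r.1.2) ∧ q = (r.2.1, w * r.2.2)

/-- The congruence on the free left `S`-act `Fin n × S` generated by `R`: the equivalence relation
generated by the elementary steps. -/
def ActCon {S : Type u} [Monoid S] {n : ℕ} (R : Set ((Fin n × S) × (Fin n × S)))
    (p q : Fin n × S) : Prop :=
  EqvGen (Step R) p q

/-- The left `S`-act `A` is finitely presented: for some `n` there is a surjective morphism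
`(i, s) ↦ s (g i)` from the free act `Fin n × S` onto `A` whose kernel is the congruence generated
by a finite set `R` of pairs. -/
def FinPres (S : Type u) [Monoid S] (A : Type u) [MulAction S A] : Prop :=
  ∃ (n : ℕ) (g : Fin n → A) (R : Set ((Fin n × S) × (Fin n × S))), R.Finite ∧
    (∀ a : A, ∃ (i : Fin n) (s : S), a = s • g i) ∧
    ∀ p q : Fin n × S, p.2 • g p.1 = q.2 • g q.1 ↔ ActCon R p q

/-- The monoid `S` is left coherent: every finitely generated subact of a finitely presented left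
`S`-act is finitely presented. -/
def LeftCoherent (S : Type u) [Monoid S] : Prop :=
  ∀ (A : Type u) [MulAction S A], FinPres S A → ∀ B : SubMulAction S A,
    (∃ (k : ℕ) (c : Fin k → A), ∀ a : A, a ∈ B ↔ ∃ (i : Fin k) (s : S), a = s • c i) →
      FinPres S B

/-- The monoid `S` is right coherent: the opposite monoid is left coherent, that is, every
finitely generated subact of a finitely presented right `S`-act is finitely presented. -/
def RightCoherent (S : Type u) [Monoid S] : Prop := LeftCoherent Sᵐᵒᵖ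

/-- The underlying set of `S(M)`: pairs of a subset of `M` and an element of `M`. -/
@[ext] structure SpecialProd (M : Type u) where
  /-- the subset -/
  set : Set M
  /-- the element -/
  elt : M

/-- `S(M)` with `(X, x)(Y, y) = (X ∪ xY, xy)` and identity `(∅, 1)`. -/
instance (M : Type u) [Monoid M] : Monoid (SpecialProd M) where
  mul p q := ⟨p.set ∪ (fun y => p.elt * y) '' q.set, p.elt * q.elt⟩
  one := ⟨∅, 1⟩
  mul_assoc p q r := by
    apply SpecialProd.ext
    · change (p.set ∪ (fun y => p.elt * y) '' q.set) ∪ (fun y => (p.elt * q.elt) * y) '' r.set =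
        p.set ∪ (fun y => p.elt * y) '' (q.set ∪ (fun y => q.elt * y) '' r.set)
      rw [Set.image_union, Set.union_assoc, Set.image_image]
      simp only [mul_assoc]
    · exact mul_assoc _ _ _
  one_mul p := by
    apply SpecialProd.ext
    · change (∅ : Set M) ∪ (fun y => (1 : M) * y) '' p.set = p.set
      simp
    · exact one_mul _
  mul_one p := by
    apply SpecialProd.ext
    · change p.set ∪ (fun y => p.elt * y) '' (∅ : Set M) = p.set
      simp
    · exact mul_one _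

end Defs

section Basic

variable {M : Type u} [Monoid M]

lemma mul_set (p q : SpecialProd M) :
    (p * q).set = p.set ∪ (fun y => p.elt * y) '' q.set := rfl

lemma mul_elt (p q : SpecialProd M) : (p * q).elt = p.elt * q.elt := rfl

lemma one_set : (1 : SpecialProd M).set = ∅ := rfl

lemma one_elt : (1 : SpecialProd M).elt = 1 := rfl

lemma mk_mul_mk (X Y : Set M) (x y : M) :
    (⟨X, x⟩ : SpecialProd M) * ⟨Y, y⟩ = ⟨X ∪ (fun y => x * y) '' Y, x * y⟩ := rfl

lemma mk_one_mul (X Y : Set M) (y : M) :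
    (⟨X, 1⟩ : SpecialProd M) * ⟨Y, y⟩ = ⟨X ∪ Y, y⟩ := by
  rw [mk_mul_mk]; simp

end Basic

section Cyclic

/-- In a left coherent monoid the left annihilator congruences of elements are finitely
generated. -/
lemma LeftCoherent.cyclic {S : Type u} [Monoid S] (hS : LeftCoherent S) (c : S) :
    ∃ K : Set (S × S), K.Finite ∧ (∀ r ∈ K, r.1 * c = r.2 * c) ∧
      ∀ s t : S, s * c = t * c →
        EqvGen (fun s t : S => ∃ r ∈ K, ∃ w : S, s = w * r.1 ∧ t = w * r.2) s t := by
  classical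
  have hA : FinPres S S := by
    refine ⟨1, fun _ => 1, ∅, Set.finite_empty, fun a => ⟨0, a, by simp⟩, ?_⟩
    intro p q
    constructor
    · intro h
      have : p = q := Prod.ext (Subsingleton.elim _ _) (by simpa using h)
      subst this
      exact EqvGen.refl _
    · intro h
      induction h with
      | rel x y hxy => obtain ⟨r, hr, _⟩ := hxy; exact absurd hr (Set.notMem_empty _)
      | refl x => rfl
      | symm x y _ ih => exact ih.symm
      | trans x y z _ _ ih1 ih2 => exact ih1.trans ih2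
  let B : SubMulAction S S :=
    { carrier := {a | ∃ s : S, a = s • c}
      smul_mem' := by
        rintro t a ⟨s, rfl⟩
        exact ⟨t * s, by rw [mul_smul]⟩ }
  have hB : ∀ a : S, a ∈ B ↔ ∃ (i : Fin 1) (s : S), a = s • (fun _ : Fin 1 => c) i := by
    intro a
    constructor
    · rintro ⟨s, rfl⟩; exact ⟨0, s, rfl⟩
    · rintro ⟨_, s, rfl⟩; exact ⟨s, rfl⟩
  obtain ⟨m, d, R, hR, hgen, hker⟩ := hS S hA B ⟨1, fun _ => c, hB⟩
  have hd : ∀ k : Fin m, ∃ p : S, (d k : S) = p * c := fun k => (d k).2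
  choose p hp using hd
  have hc : c ∈ B := ⟨1, by simp⟩
  obtain ⟨k0, q, hq⟩ := hgen ⟨c, hc⟩
  have hq' : c = q * (p k0 * c) := by
    have := congrArg Subtype.val hq
    simpa [hp] using this
  refine ⟨{(1, q * p k0)} ∪ (fun r : (Fin m × S) × (Fin m × S) =>
    (r.1.2 * p r.1.1, r.2.2 * p r.2.1)) '' R,
    (Set.finite_singleton _).union (hR.image _), ?_, ?_⟩
  · rintro r (hr | ⟨r', hr', rfl⟩)
    · rw [Set.mem_singleton_iff] at hr
      subst hr
      simpa [mul_assoc] using hq'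
    · have h1 : ActCon R r'.1 r'.2 :=
        EqvGen.rel _ _ ⟨r', hr', 1, by simp, by simp⟩
      have h2 := (hker r'.1 r'.2).2 h1
      have h3 := congrArg Subtype.val h2
      simpa [hp, mul_assoc] using h3
  · intro s t hst
    set E := fun s t : S => ∃ r ∈ ({(1, q * p k0)} ∪ (fun r : (Fin m × S) × (Fin m × S) =>
      (r.1.2 * p r.1.1, r.2.2 * p r.2.1)) '' R : Set (S × S)), ∃ w : S,
        s = w * r.1 ∧ t = w * r.2 with hE
    have h1 : ∀ s : S, EqvGen E s (s * (q * p k0)) := fun s =>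
      EqvGen.rel _ _ ⟨(1, q * p k0), Or.inl rfl, s, by simp, rfl⟩
    have h2 : ActCon R (k0, s * q) (k0, t * q) := by
      refine (hker _ _).1 ?_
      apply Subtype.ext
      simp only [SubMulAction.val_smul, smul_eq_mul, hp]
      calc s * q * (p k0 * c) = s * (q * (p k0 * c)) := by simp only [mul_assoc]
        _ = s * c := by rw [← hq']
        _ = t * c := hst
        _ = t * (q * (p k0 * c)) := by rw [← hq']
        _ = t * q * (p k0 * c) := by simp only [mul_assoc]
    have h3 : ∀ x y : Fin m × S, ActCon R x y → EqvGen E (x.2 * p x.1) (y.2 * p y.1) := by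
      intro x y h
      induction h with
      | rel x y hxy =>
        obtain ⟨r, hr, w, rfl, rfl⟩ := hxy
        exact EqvGen.rel _ _ ⟨_, Or.inr ⟨r, hr, rfl⟩, w, by simp [mul_assoc], by simp [mul_assoc]⟩
      | refl x => exact EqvGen.refl _
      | symm x y _ ih => exact ih.symm
      | trans x y z _ _ ih1 ih2 => exact ih1.trans _ _ _ ih2
    have h4 := h3 _ _ h2
    simp only [mul_assoc] at h4
    exact ((h1 s).trans _ _ _ h4).trans _ _ _ (h1 t).symm

/-- A property invariant under the elementary steps is invariant under the congruence. -/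
lemma eqvGen_iff {α : Type u} {E : α → α → Prop} {f : α → Prop}
    (h : ∀ s t, E s t → (f s ↔ f t)) {s t : α} (hst : EqvGen E s t) : f s ↔ f t := by
  induction hst with
  | rel x y hxy => exact h x y hxy
  | refl x => exact Iff.rfl
  | symm x y _ ih => exact ih.symm
  | trans x y z _ _ ih1 ih2 => exact ih1.trans ih2

end Cyclic

section Monoids

/-- The null monoid: an identity, a zero and infinitely many elements `b n` with
`(b m) (b n) = 0`. -/
inductive Nul : Type
  | one : Nul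
  | zero : Nul
  | b : ℕ → Nul

/-- The multiplication of the null monoid. -/
def Nul.mul : Nul → Nul → Nul
  | .one, x => x
  | x, .one => x
  | _, _ => .zero

instance : Monoid Nul where
  mul := Nul.mul
  one := Nul.one
  mul_assoc x y z := by
    change Nul.mul (Nul.mul x y) z = Nul.mul x (Nul.mul y z)
    cases x <;> cases y <;> cases z <;> rfl
  one_mul x := by cases x <;> rfl
  mul_one x := by cases x <;> rfl

/-- The null monoid with an additional idempotent `e` such that `u e = u` for `u ≠ 1` and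
`e (b n) = 0`. -/
inductive Ext : Type
  | one : Ext
  | e : Ext
  | zero : Ext
  | b : ℕ → Ext

/-- The multiplication of the extended null monoid. -/
def Ext.mul : Ext → Ext → Ext
  | .one, x => x
  | x, .one => x
  | x, .e => x
  | _, _ => .zero

instance : Monoid Ext where
  mul := Ext.mul
  one := Ext.one
  mul_assoc x y z := by
    change Ext.mul (Ext.mul x y) z = Ext.mul x (Ext.mul y z)
    cases x <;> cases y <;> cases z <;> rfl
  one_mul x := by cases x <;> rfl
  mul_one x := by cases x <;> rfl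

/-- The inclusion of the null monoid. -/
def incl : Nul → Ext
  | .one => .one
  | .zero => .zero
  | .b n => .b n

lemma incl_injective : Function.Injective incl := by
  intro x y h
  cases x <;> cases y <;> simp_all [incl]

lemma incl_mul (x y : Nul) : incl (x * y) = incl x * incl y := by
  change incl (Nul.mul x y) = Ext.mul (incl x) (incl y)
  cases x <;> cases y <;> rfl

/-- The induced homomorphism of the special semidirect products. -/
def inclHom : SpecialProd Nul →* SpecialProd Ext where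
  toFun p := ⟨incl '' p.set, incl p.elt⟩
  map_one' := by
    apply SpecialProd.ext
    · change incl '' (∅ : Set Nul) = (∅ : Set Ext)
      simp
    · rfl
  map_mul' p q := by
    apply SpecialProd.ext
    · change incl '' (p.set ∪ (fun y => p.elt * y) '' q.set) =
        incl '' p.set ∪ (fun y => incl p.elt * y) '' (incl '' q.set)
      rw [Set.image_union, Set.image_image, Set.image_image]
      simp only [incl_mul]
    · exact incl_mul _ _

lemma inclHom_injective : Function.Injective inclHom := by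
  intro p q h
  apply SpecialProd.ext
  · have h1 : incl '' p.set = incl '' q.set := congrArg SpecialProd.set h
    exact Set.image_injective.2 incl_injective h1
  · exact incl_injective (congrArg SpecialProd.elt h)

end Monoids

section NonCoherent

lemma nul_mul_eq_b {x y : Nul} {n : ℕ} (h : x * y = Nul.b n) :
    (x = 1 ∧ y = Nul.b n) ∨ (x = Nul.b n ∧ y = 1) := by
  change Nul.mul x y = Nul.b n at h
  cases x <;> cases y <;> simp_all [Nul.mul] <;> rfl

/-- The element `(∅, b n)`. -/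
def bb (n : ℕ) : SpecialProd Nul := ⟨∅, Nul.b n⟩

/-- The element `(∅, 0)`. -/
def zz : SpecialProd Nul := ⟨∅, Nul.zero⟩

lemma bb_injective : Function.Injective bb := by
  intro m n h
  have := congrArg SpecialProd.elt h
  simpa [bb] using this

lemma zz_ne_bb (n : ℕ) : zz ≠ bb n := by
  intro h
  have := congrArg SpecialProd.elt h
  simp [bb, zz] at this

lemma bb_ne_one (n : ℕ) : bb n ≠ 1 := by
  intro h
  have := congrArg SpecialProd.elt h
  change Nul.b n = Nul.one at this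
  simp at this

lemma mul_eq_bb {p q : SpecialProd Nul} {n : ℕ} (h : p * q = bb n) :
    (p = 1 ∧ q = bb n) ∨ (p = bb n ∧ q = 1) := by
  have h1 : p.set ∪ (fun y => p.elt * y) '' q.set = ∅ := congrArg SpecialProd.set h
  have h2 : p.elt * q.elt = Nul.b n := congrArg SpecialProd.elt h
  rw [Set.union_empty_iff, Set.image_eq_empty] at h1
  rcases nul_mul_eq_b h2 with ⟨ha, hb⟩ | ⟨ha, hb⟩
  · exact Or.inl ⟨SpecialProd.ext h1.1 ha, SpecialProd.ext h1.2 hb⟩
  · exact Or.inr ⟨SpecialProd.ext h1.1 ha, SpecialProd.ext h1.2 hb⟩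

lemma bb_mul_bb (m n : ℕ) : bb m * bb n = zz := by
  apply SpecialProd.ext
  · change (∅ : Set Nul) ∪ (fun y => Nul.b m * y) '' (∅ : Set Nul) = ∅
    simp
  · rfl

lemma bb_mul_zz (m : ℕ) : bb m * zz = zz := by
  apply SpecialProd.ext
  · change (∅ : Set Nul) ∪ (fun y => Nul.b m * y) '' (∅ : Set Nul) = ∅
    simp
  · rfl

lemma zz_mul_bb (m : ℕ) : zz * bb m = zz := by
  apply SpecialProd.ext
  · change (∅ : Set Nul) ∪ (fun y => Nul.zero * y) '' (∅ : Set Nul) = ∅
    simp
  · rfl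

lemma exists_fresh (K : Set (SpecialProd Nul)) (hK : K.Finite) : ∃ n, bb n ∉ K := by
  by_contra hcon
  push Not at hcon
  exact (Set.infinite_range_of_injective bb_injective)
    (hK.subset (by rintro _ ⟨n, rfl⟩; exact hcon n))

theorem not_leftCoherent : ¬ LeftCoherent (SpecialProd Nul) := by
  intro hS
  obtain ⟨K, hK, hK1, hK2⟩ := hS.cyclic (bb 0)
  obtain ⟨n, hn⟩ := exists_fresh (Prod.fst '' K ∪ Prod.snd '' K)
    ((hK.image _).union (hK.image _))
  have key : ∀ u v w : SpecialProd Nul, ((u, v) ∈ K ∨ (v, u) ∈ K) →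
      w * u = bb n → w * v = bb n := by
    intro u v w huv h
    have hc : u * bb 0 = v * bb 0 := by
      rcases huv with h | h
      · exact hK1 _ h
      · exact (hK1 _ h).symm
    have hu : u ≠ bb n := by
      rintro rfl
      rcases huv with h | h
      · exact hn (Or.inl ⟨_, h, rfl⟩)
      · exact hn (Or.inr ⟨_, h, rfl⟩)
    rcases mul_eq_bb h with ⟨_, h2⟩ | ⟨h1, h2⟩
    · exact absurd h2 hu
    · subst h2
      rw [one_mul] at hc
      rcases mul_eq_bb hc.symm with ⟨h3, _⟩ | ⟨_, h3⟩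
      · rw [h3]; exact h
      · exact absurd h3 (bb_ne_one 0)
  have h1 := hK2 (bb n) zz (by rw [bb_mul_bb, zz_mul_bb])
  have h2 := eqvGen_iff (f := fun s => s = bb n) (by
    rintro s t ⟨r, hr, w, rfl, rfl⟩
    exact ⟨key r.1 r.2 w (Or.inl hr), key r.2 r.1 w (Or.inr hr)⟩) h1
  exact zz_ne_bb n (h2.1 rfl)

theorem not_rightCoherent : ¬ RightCoherent (SpecialProd Nul) := by
  intro hS
  obtain ⟨K, hK, hK1, hK2⟩ := LeftCoherent.cyclic hS (op (bb 0))
  obtain ⟨n, hn⟩ := exists_fresh ((fun r => unop (Prod.fst r)) '' K ∪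
    (fun r => unop (Prod.snd r)) '' K) ((hK.image _).union (hK.image _))
  have key : ∀ u v w : (SpecialProd Nul)ᵐᵒᵖ, ((u, v) ∈ K ∨ (v, u) ∈ K) →
      w * u = op (bb n) → w * v = op (bb n) := by
    intro u v w huv h
    have hc : bb 0 * unop u = bb 0 * unop v := by
      rcases huv with h | h
      · exact congrArg unop (hK1 _ h)
      · exact congrArg unop (hK1 _ h).symm
    have hu : unop u ≠ bb n := by
      intro hu
      rcases huv with h | h
      · exact hn (Or.inl ⟨_, h, hu⟩)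
      · exact hn (Or.inr ⟨_, h, hu⟩)
    have h' : unop u * unop w = bb n := congrArg unop h
    rcases mul_eq_bb h' with ⟨h1, h2⟩ | ⟨h1, _⟩
    · rw [h1, mul_one] at hc
      rcases mul_eq_bb hc.symm with ⟨h3, _⟩ | ⟨_, h3⟩
      · exact absurd h3 (bb_ne_one 0)
      · apply unop_injective
        rw [unop_mul, h3, one_mul, h2, unop_op]
    · exact absurd h1 hu
  have h1 := hK2 (op (bb n)) (op zz) (by
    rw [← op_mul, ← op_mul, bb_mul_bb, bb_mul_zz])
  have h2 := eqvGen_iff (f := fun s => s = op (bb n)) (by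
    rintro s t ⟨r, hr, w, rfl, rfl⟩
    exact ⟨key r.1 r.2 w (Or.inl hr), key r.2 r.1 w (Or.inr hr)⟩) h1
  exact zz_ne_bb n (op_injective (h2.1 rfl))

end NonCoherent

section Saturation

variable (UU : Set (Set Ext))

/-- Two elements are indistinguishable by the sets of `UU`. -/
def Eqv (x y : Ext) : Prop := ∀ U ∈ UU, (x ∈ U ↔ y ∈ U)

/-- `Z` is a union of classes of indistinguishable elements. -/
def Sat (Z : Set Ext) : Prop := ∀ x y, Eqv UU x y → x ∈ Z → y ∈ Z

/-- On a class on which `Z` and `Y` agree and are proper the result is empty, on the other classes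
it is the full class. -/
def th (Y Z : Set Ext) : Set Ext :=
  {x | (∃ y, Eqv UU x y ∧ ¬ (y ∈ Z ↔ y ∈ Y)) ∨ ∀ y, Eqv UU x y → y ∈ Z}

/-- The union of the classes on which `Y` and `Z` differ. -/
def df (Y Z : Set Ext) : Set Ext := {x | ∃ y, Eqv UU x y ∧ ¬ (y ∈ Z ↔ y ∈ Y)}

/-- The union of the classes meeting `Y`. -/
def cl (Y : Set Ext) : Set Ext := {x | ∃ y, Eqv UU x y ∧ y ∈ Y}

variable {UU}

lemma Eqv.refl (x : Ext) : Eqv UU x x := fun _ _ => Iff.rfl

lemma Eqv.symm {x y : Ext} (h : Eqv UU x y) : Eqv UU y x := fun U hU => (h U hU).symm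

lemma Eqv.trans {x y z : Ext} (h : Eqv UU x y) (h' : Eqv UU y z) : Eqv UU x z :=
  fun U hU => (h U hU).trans (h' U hU)

lemma sat_mem {U : Set Ext} (hU : U ∈ UU) : Sat UU U := fun _ _ h hx => (h U hU).1 hx

lemma Sat.union {U V : Set Ext} (hU : Sat UU U) (hV : Sat UU V) : Sat UU (U ∪ V) := by
  rintro x y h (hx | hx)
  · exact Or.inl (hU x y h hx)
  · exact Or.inr (hV x y h hx)

lemma sat_th (Y Z : Set Ext) : Sat UU (th UU Y Z) := by
  rintro x x' h (⟨y, hy, hy'⟩ | hx)
  · exact Or.inl ⟨y, h.symm.trans hy, hy'⟩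
  · exact Or.inr fun y hy => hx y (h.trans hy)

lemma sat_df (Y Z : Set Ext) : Sat UU (df UU Y Z) := by
  rintro x x' h ⟨y, hy, hy'⟩
  exact ⟨y, h.symm.trans hy, hy'⟩

lemma sat_cl (Y : Set Ext) : Sat UU (cl UU Y) := by
  rintro x x' h ⟨y, hy, hy'⟩
  exact ⟨y, h.symm.trans hy, hy'⟩

lemma sat_of_subset {M0 Z : Set Ext} (hM : ∀ m ∈ M0, ({m} : Set Ext) ∈ UU) (hZ : Z ⊆ M0) :
    Sat UU Z := by
  intro x y h hx
  have := (h {x} (hM x (hZ hx))).1 rfl
  rw [Set.mem_singleton_iff] at this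
  rw [this]; exact hx

lemma th_union {U : Set Ext} (hU : Sat UU U) (Y Z : Set Ext) :
    th UU Y (U ∪ Z) = U ∪ th UU Y Z := by
  ext x
  by_cases hx : x ∈ U
  · constructor
    · intro _; exact Or.inl hx
    · intro _
      exact Or.inr fun y hy => Or.inl (hU x y hy hx)
  · have key : ∀ y, Eqv UU x y → (y ∈ U ∪ Z ↔ y ∈ Z) := by
      intro y hy
      constructor
      · rintro (h | h)
        · exact absurd (hU y x hy.symm h) hx
        · exact h
      · exact Or.inr
    constructor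
    · rintro (⟨y, hy, hy'⟩ | h)
      · rw [key y hy] at hy'
        exact Or.inr (Or.inl ⟨y, hy, hy'⟩)
      · exact Or.inr (Or.inr fun y hy => (key y hy).1 (h y hy))
    · rintro (h | ⟨y, hy, hy'⟩ | h)
      · exact absurd h hx
      · rw [← key y hy] at hy'
        exact Or.inl ⟨y, hy, hy'⟩
      · exact Or.inr fun y hy => (key y hy).2 (h y hy)

lemma th_union_self (Y Z : Set Ext) : th UU Y Z ∪ Y = df UU Y Z ∪ Y := by
  ext x
  constructor
  · rintro ((h | h) | h)
    · exact Or.inl h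
    · by_cases hx : x ∈ Y
      · exact Or.inr hx
      · refine Or.inl ⟨x, Eqv.refl x, fun h' => hx (h'.1 (h x (Eqv.refl x)))⟩
    · exact Or.inr h
  · rintro (h | h)
    · exact Or.inl (Or.inl h)
    · exact Or.inr h

lemma df_union (Y Z : Set Ext) : df UU Y Z ∪ Y = df UU Y Z ∪ Z := by
  ext x
  constructor
  · rintro (h | h)
    · exact Or.inl h
    · by_cases hx : x ∈ Z
      · exact Or.inr hx
      · exact Or.inl ⟨x, Eqv.refl x, fun h' => hx (h'.2 h)⟩
  · rintro (h | h)
    · exact Or.inl h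
    · by_cases hx : x ∈ Y
      · exact Or.inr hx
      · exact Or.inl ⟨x, Eqv.refl x, fun h' => hx (h'.1 h)⟩

lemma df_comm (Y Z : Set Ext) : df UU Y Z = df UU Z Y := by
  ext x
  constructor
  · rintro ⟨y, hy, hy'⟩
    exact ⟨y, hy, fun h => hy' h.symm⟩
  · rintro ⟨y, hy, hy'⟩
    exact ⟨y, hy, fun h => hy' h.symm⟩

lemma th_self_subset (Y : Set Ext) : th UU Y Y ⊆ Y := by
  rintro x (⟨y, _, hy⟩ | h)
  · exact absurd Iff.rfl hy
  · exact h x (Eqv.refl x)

lemma th_of_sat {Z : Set Ext} (hZ : Sat UU Z) (Y : Set Ext) : th UU Y Z = Z ∪ cl UU Y := by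
  ext x
  constructor
  · rintro (⟨y, hy, hy'⟩ | h)
    · by_cases hyZ : y ∈ Z
      · exact Or.inl (hZ y x hy.symm hyZ)
      · by_cases hyY : y ∈ Y
        · exact Or.inr ⟨y, hy, hyY⟩
        · exact absurd ⟨fun h => absurd h hyZ, fun h => absurd h hyY⟩ hy'
    · exact Or.inl (h x (Eqv.refl x))
  · rintro (h | ⟨y, hy, hyY⟩)
    · exact Or.inr fun y hy => hZ x y hy h
    · by_cases hyZ : y ∈ Z
      · exact Or.inr fun y' hy' => hZ y y' (hy.symm.trans hy') hyZ
      · exact Or.inl ⟨y, hy, fun h => hyZ (h.2 hyY)⟩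

lemma cl_union_self (Y : Set Ext) : cl UU Y ∪ Y = cl UU Y :=
  Set.union_eq_self_of_subset_right fun x hx => ⟨x, Eqv.refl x, hx⟩

lemma finite_sat (hUU : UU.Finite) {M0 : Set Ext} (hM0 : M0.Finite) :
    {p : SpecialProd Ext | Sat UU p.set ∧ p.elt ∈ M0}.Finite := by
  have h1 : ((𝒫 (𝒫 UU)) ×ˢ M0).Finite := (hUU.powerset.powerset).prod hM0
  refine Set.Finite.of_injOn (f := fun p : SpecialProd Ext =>
    ((fun x => {U | U ∈ UU ∧ x ∈ U}) '' p.set, p.elt)) ?_ ?_ h1
  · rintro p ⟨_, hp⟩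
    refine ⟨?_, hp⟩
    rintro _ ⟨x, _, rfl⟩ U hU
    exact hU.1
  · rintro p ⟨hp, _⟩ q ⟨hq, _⟩ hpq
    have h2 := congrArg Prod.fst hpq
    have h3 := congrArg Prod.snd hpq
    refine SpecialProd.ext ?_ h3
    have aux : ∀ p q : SpecialProd Ext, Sat UU q.set →
        (fun x => {U | U ∈ UU ∧ x ∈ U}) '' p.set = (fun x => {U | U ∈ UU ∧ x ∈ U}) '' q.set →
        p.set ⊆ q.set := by
      intro p q hq h x hx
      have : {U | U ∈ UU ∧ x ∈ U} ∈ (fun x => {U | U ∈ UU ∧ x ∈ U}) '' q.set := by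
        rw [← h]; exact ⟨x, hx, rfl⟩
      obtain ⟨y, hy, hyx⟩ := this
      refine hq y x (fun U hU => ?_) hy
      constructor
      · intro hyU
        have : U ∈ {U | U ∈ UU ∧ y ∈ U} := ⟨hU, hyU⟩
        simp only at hyx
        rw [hyx] at this
        exact this.2
      · intro hxU
        have : U ∈ {U | U ∈ UU ∧ x ∈ U} := ⟨hU, hxU⟩
        simp only at hyx
        rw [← hyx] at this
        exact this.2
    exact Set.Subset.antisymm (aux p q hq h2) (aux q p hp h2.symm)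

end Saturation

section Main

/-- One elementary step in the free right act `Fin n × S(M)`. -/
def RStep {n : ℕ} (R : Set ((Fin n × SpecialProd Ext) × (Fin n × SpecialProd Ext)))
    (p q : Fin n × SpecialProd Ext) : Prop :=
  ∃ r ∈ R, ∃ w : SpecialProd Ext, p = (r.1.1, r.1.2 * w) ∧ q = (r.2.1, r.2.2 * w)

/-- The steps using only pairs whose second components are `1`. -/
def RStep1 {n : ℕ} (R : Set ((Fin n × SpecialProd Ext) × (Fin n × SpecialProd Ext)))
    (p q : Fin n × SpecialProd Ext) : Prop :=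
  ∃ r ∈ R, r.1.2.elt = 1 ∧ r.2.2.elt = 1 ∧
    ∃ w : SpecialProd Ext, p = (r.1.1, r.1.2 * w) ∧ q = (r.2.1, r.2.2 * w)

lemma ext_mul {u : Ext} (hu : u ≠ 1) (w : Ext) : u * w = u ∨ u * w = Ext.zero := by
  change Ext.mul u w = u ∨ Ext.mul u w = Ext.zero
  cases u <;> cases w <;> simp [Ext.mul]
  all_goals exact absurd rfl hu

lemma ext_mul_e {u : Ext} (hu : u ≠ 1) : u * Ext.e = u := by
  change Ext.mul u Ext.e = u
  cases u <;> simp [Ext.mul]
  all_goals exact absurd rfl hu

lemma e_ne_one : Ext.e ≠ (1 : Ext) := by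
  intro h
  change Ext.e = Ext.one at h
  simp at h

lemma mul_eps {p : SpecialProd Ext} (hp : p.elt ≠ 1) : p * ⟨∅, Ext.e⟩ = p := by
  apply SpecialProd.ext
  · rw [mul_set]; simp
  · exact ext_mul_e hp

theorem main {A : Type} (act : A → SpecialProd Ext → A) (act_one : ∀ a, act a 1 = a)
    (act_mul : ∀ a s t, act (act a s) t = act a (s * t)) {n : ℕ} (g : Fin n → A)
    (R : Set ((Fin n × SpecialProd Ext) × (Fin n × SpecialProd Ext))) (hR : R.Finite)
    (hker : ∀ p q : Fin n × SpecialProd Ext,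
      act (g p.1) p.2 = act (g q.1) q.2 ↔ EqvGen (RStep R) p q)
    {k : ℕ} (al : Fin k → Fin n) (pp : Fin k → SpecialProd Ext) :
    ∃ Γ : Set ((Fin k × SpecialProd Ext) × (Fin k × SpecialProd Ext)), Γ.Finite ∧
      ∀ p q : Fin k × SpecialProd Ext,
        act (act (g (al p.1)) (pp p.1)) p.2 = act (act (g (al q.1)) (pp q.1)) q.2 ↔
          EqvGen (RStep Γ) p q := by
  classical
  set M0 : Set Ext := {1, Ext.e, Ext.zero} ∪ ((fun r => r.1.2.elt) '' R ∪
    ((fun r => r.2.2.elt) '' R ∪ Set.range fun i => (pp i).elt)) with hM0def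
  have hM0 : M0.Finite :=
    (Set.toFinite _).union ((hR.image _).union ((hR.image _).union (Set.finite_range _)))
  set UU : Set (Set Ext) := (fun m => ({m} : Set Ext)) '' M0 ∪ ((fun r => r.1.2.set) '' R ∪
    ((fun r => r.2.2.set) '' R ∪ Set.range fun i => (pp i).set)) with hUUdef
  have hUU : UU.Finite :=
    (hM0.image _).union ((hR.image _).union ((hR.image _).union (Set.finite_range _)))
  have hsing : ∀ m ∈ M0, ({m} : Set Ext) ∈ UU := fun m hm => Or.inl ⟨m, hm, rfl⟩
  have h1M : (1 : Ext) ∈ M0 := Or.inl (by simp)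
  have heM : Ext.e ∈ M0 := Or.inl (by simp)
  have hzM : Ext.zero ∈ M0 := Or.inl (by simp)
  have hR1e : ∀ r ∈ R, r.1.2.elt ∈ M0 := fun r hr => Or.inr (Or.inl ⟨r, hr, rfl⟩)
  have hR2e : ∀ r ∈ R, r.2.2.elt ∈ M0 := fun r hr => Or.inr (Or.inr (Or.inl ⟨r, hr, rfl⟩))
  have hpe : ∀ i, (pp i).elt ∈ M0 := fun i => Or.inr (Or.inr (Or.inr ⟨i, rfl⟩))
  have hR1s : ∀ r ∈ R, Sat UU r.1.2.set := fun r hr => sat_mem (Or.inr (Or.inl ⟨r, hr, rfl⟩))
  have hR2s : ∀ r ∈ R, Sat UU r.2.2.set :=
    fun r hr => sat_mem (Or.inr (Or.inr (Or.inl ⟨r, hr, rfl⟩)))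
  have hps : ∀ i, Sat UU (pp i).set := fun i => sat_mem (Or.inr (Or.inr (Or.inr ⟨i, rfl⟩)))
  have hmulM : ∀ u ∈ M0, u ≠ 1 → ∀ w, u * w ∈ M0 := by
    intro u hu hu1 w
    rcases ext_mul hu1 w with h | h
    · rw [h]; exact hu
    · rw [h]; exact hzM
  have himg : ∀ u ∈ M0, u ≠ 1 → ∀ W : Set Ext, Sat UU ((fun y => u * y) '' W) := by
    intro u hu hu1 W
    refine sat_of_subset hsing ?_
    rintro _ ⟨y, _, rfl⟩
    exact hmulM u hu hu1 y
  set c : Fin k → A := fun i => act (g (al i)) (pp i) with hc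
  set T0 : Set (SpecialProd Ext) := {p | Sat UU p.set ∧ p.elt ∈ M0} with hT0def
  have hT0 : T0.Finite := finite_sat hUU hM0
  set Γ : Set ((Fin k × SpecialProd Ext) × (Fin k × SpecialProd Ext)) :=
    {r | r.1.2 ∈ T0 ∧ r.2.2 ∈ T0 ∧ act (c r.1.1) r.1.2 = act (c r.2.1) r.2.2} with hΓdef
  have hΓ : Γ.Finite := by
    refine Set.Finite.subset
      (((Set.finite_univ (α := Fin k)).prod hT0).prod ((Set.finite_univ (α := Fin k)).prod hT0)) ?_
    rintro r ⟨h1, h2, _⟩
    exact ⟨⟨trivial, h1⟩, ⟨trivial, h2⟩⟩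
  refine ⟨Γ, hΓ, ?_⟩
  have sound : ∀ p q, EqvGen (RStep Γ) p q → act (c p.1) p.2 = act (c q.1) q.2 := by
    intro p q h
    induction h with
    | rel x y hxy =>
      obtain ⟨r, ⟨_, _, hr⟩, w, rfl, rfl⟩ := hxy
      change act (c r.1.1) (r.1.2 * w) = act (c r.2.1) (r.2.2 * w)
      rw [← act_mul, ← act_mul, hr]
    | refl x => rfl
    | symm x y _ ih => exact ih.symm
    | trans x y z _ _ ih1 ih2 => exact ih1.trans ih2
  have stepΓ : ∀ (i j : Fin k) (s t w : SpecialProd Ext), s ∈ T0 → t ∈ T0 →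
      act (c i) s = act (c j) t → EqvGen (RStep Γ) (i, s * w) (j, t * w) := by
    intro i j s t w hs ht h
    exact EqvGen.rel _ _ ⟨((i, s), (j, t)), ⟨hs, ht, h⟩, w, rfl, rfl⟩
  have hRact : ∀ r ∈ R, act (g r.1.1) r.1.2 = act (g r.2.1) r.2.2 := by
    intro r hr
    exact (hker r.1 r.2).2 (EqvGen.rel _ _ ⟨r, hr, 1, by simp, by simp⟩)
  set good : Fin n × SpecialProd Ext → Prop := fun p =>
    (Sat UU p.2.set ∧ p.2.elt ∈ M0) ∨
      ∃ U, Sat UU U ∧ U ⊆ p.2.set ∧ act (g p.1) ⟨U, 1⟩ = act (g p.1) ⟨U, Ext.e⟩ with hgood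
  have lemB : ∀ p q, EqvGen (RStep1 R) p q → p.2.elt = q.2.elt ∧
      act (g p.1) ⟨p.2.set, 1⟩ = act (g q.1) ⟨q.2.set, 1⟩ ∧
      ∀ Y, act (g p.1) ⟨th UU Y p.2.set, 1⟩ = act (g q.1) ⟨th UU Y q.2.set, 1⟩ := by
    intro p q h
    induction h with
    | rel x y hxy =>
      obtain ⟨r, hr, h1, h2, w, rfl, rfl⟩ := hxy
      have e1 : r.1.2 = ⟨r.1.2.set, 1⟩ := SpecialProd.ext rfl h1
      have e2 : r.2.2 = ⟨r.2.2.set, 1⟩ := SpecialProd.ext rfl h2
      have hr0 : act (g r.1.1) ⟨r.1.2.set, 1⟩ = act (g r.2.1) ⟨r.2.2.set, 1⟩ := by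
        rw [← e1, ← e2]; exact hRact r hr
      have m1 : r.1.2 * w = ⟨r.1.2.set ∪ w.set, w.elt⟩ := by
        rw [e1]; exact mk_one_mul _ _ _
      have m2 : r.2.2 * w = ⟨r.2.2.set ∪ w.set, w.elt⟩ := by
        rw [e2]; exact mk_one_mul _ _ _
      have key : ∀ W : Set Ext, act (g r.1.1) ⟨r.1.2.set ∪ W, 1⟩ =
          act (g r.2.1) ⟨r.2.2.set ∪ W, 1⟩ := by
        intro W
        rw [← mk_one_mul, ← mk_one_mul, ← act_mul, ← act_mul, hr0]
      simp only [m1, m2]
      refine ⟨trivial, key _, fun Y => ?_⟩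
      rw [th_union (hR1s r hr), th_union (hR2s r hr)]
      exact key _
    | refl x => exact ⟨rfl, rfl, fun _ => rfl⟩
    | symm x y _ ih => exact ⟨ih.1.symm, ih.2.1.symm, fun Y => (ih.2.2 Y).symm⟩
    | trans x y z _ _ ih1 ih2 =>
      exact ⟨ih1.1.trans ih2.1, ih1.2.1.trans ih2.2.1, fun Y => (ih1.2.2 Y).trans (ih2.2.2 Y)⟩
  have gd : ∀ (x y : Fin n × SpecialProd Ext) (w : SpecialProd Ext), Sat UU x.2.set →
      x.2.elt ∈ M0 → act (g x.1) x.2 = act (g y.1) y.2 → ¬ (x.2.elt = 1 ∧ y.2.elt = 1) →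
      good (x.1, x.2 * w) := by
    intro x y w hxs hxe hxy hne
    by_cases hx : x.2.elt = 1
    · right
      refine ⟨x.2.set, hxs, Set.subset_union_left, ?_⟩
      have e1 : x.2 = ⟨x.2.set, 1⟩ := SpecialProd.ext rfl hx
      have hy : y.2.elt ≠ 1 := fun hy => hne ⟨hx, hy⟩
      have e2 : (⟨x.2.set, Ext.e⟩ : SpecialProd Ext) = x.2 * ⟨∅, Ext.e⟩ := by
        conv_rhs => rw [e1, mk_one_mul]
        rw [Set.union_empty]
      change act (g x.1) ⟨x.2.set, 1⟩ = act (g x.1) ⟨x.2.set, Ext.e⟩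
      rw [e2, ← act_mul, ← e1, hxy, act_mul, mul_eps hy]
    · left
      exact ⟨hxs.union (himg _ hxe hx _), hmulM _ hxe hx _⟩
  have lemA : ∀ p q, EqvGen (RStep R) p q → EqvGen (RStep1 R) p q ∨
      ((∃ p', EqvGen (RStep1 R) p p' ∧ good p') ∧ ∃ q', EqvGen (RStep1 R) q q' ∧ good q') := by
    intro p q h
    induction h with
    | rel x y hxy =>
      obtain ⟨r, hr, w, rfl, rfl⟩ := hxy
      by_cases h1 : r.1.2.elt = 1 ∧ r.2.2.elt = 1
      · exact Or.inl (EqvGen.rel _ _ ⟨r, hr, h1.1, h1.2, w, rfl, rfl⟩)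
      · right
        exact ⟨⟨_, EqvGen.refl _, gd r.1 r.2 w (hR1s r hr) (hR1e r hr) (hRact r hr) h1⟩,
          ⟨_, EqvGen.refl _, gd r.2 r.1 w (hR2s r hr) (hR2e r hr) (hRact r hr).symm
            (fun h => h1 ⟨h.2, h.1⟩)⟩⟩
    | refl x => exact Or.inl (EqvGen.refl _)
    | symm x y _ ih =>
      rcases ih with h | ⟨h1, h2⟩
      · exact Or.inl h.symm
      · exact Or.inr ⟨h2, h1⟩
    | trans x y z _ _ ih1 ih2 =>
      rcases ih1 with h1 | ⟨h1, h2⟩
      · rcases ih2 with h3 | ⟨⟨y', h3, h3'⟩, h4⟩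
        · exact Or.inl (h1.trans _ _ _ h3)
        · exact Or.inr ⟨⟨y', h1.trans _ _ _ h3, h3'⟩, h4⟩
      · rcases ih2 with h3 | ⟨_, h4⟩
        · obtain ⟨y', h5, h5'⟩ := h2
          exact Or.inr ⟨h1, ⟨y', h3.symm.trans _ _ _ h5, h5'⟩⟩
        · exact Or.inr ⟨h1, h4⟩
  have hgoodne : ∀ i s, (pp i).elt ≠ 1 → good (al i, pp i * s) := by
    intro i s hi
    left
    exact ⟨(hps i).union (himg _ (hpe i) hi _), hmulM _ (hpe i) hi _⟩
  have hcact : ∀ i, (pp i).elt = 1 → ∀ Z : Set Ext,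
      act (c i) ⟨Z, 1⟩ = act (g (al i)) ⟨(pp i).set ∪ Z, 1⟩ := by
    intro i hi Z
    have e1 : pp i = ⟨(pp i).set, 1⟩ := SpecialProd.ext rfl hi
    change act (act (g (al i)) (pp i)) ⟨Z, 1⟩ = _
    rw [act_mul]
    conv_lhs => rw [e1, mk_one_mul]
  have hpis : ∀ i, (pp i).elt = 1 → ∀ s : SpecialProd Ext,
      pp i * s = ⟨(pp i).set ∪ s.set, s.elt⟩ := by
    intro i hi s
    have e1 : pp i = ⟨(pp i).set, 1⟩ := SpecialProd.ext rfl hi
    conv_lhs => rw [e1]
    exact mk_one_mul _ _ _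
  have claimC : ∀ (i : Fin k) (s : SpecialProd Ext),
      (∃ z', EqvGen (RStep1 R) (al i, pp i * s) z' ∧ good z') →
        ∃ s0 ∈ T0, EqvGen (RStep Γ) (i, s) (i, s0) := by
    rintro i s ⟨z', hz', hg⟩
    by_cases hi : (pp i).elt = 1
    · rw [hpis i hi] at hz'
      obtain ⟨hw, hE, hθ⟩ := lemB _ _ hz'
      simp only at hw hE hθ
      have hθ' := hθ s.set
      rw [th_union (hps i), ← hcact i hi] at hθ'
      have hss : th UU s.set s.set ∪ s.set = s.set :=
        Set.union_eq_self_of_subset_left (th_self_subset _)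
      have hs0 : (⟨th UU s.set s.set, 1⟩ : SpecialProd Ext) * s = s := by
        have := mk_one_mul (th UU s.set s.set) s.set s.elt
        rw [hss] at this
        exact this
      rcases hg with ⟨ha1, ha2⟩ | ⟨U, hU, hUz, hUe⟩
      · have hA : act (c i) ⟨th UU s.set s.set, 1⟩ = act (c i) ⟨cl UU s.set, 1⟩ := by
          calc act (c i) ⟨th UU s.set s.set, 1⟩
              = act (g z'.1) ⟨th UU s.set z'.2.set, 1⟩ := hθ'
            _ = act (g z'.1) (⟨z'.2.set, 1⟩ * ⟨cl UU s.set, 1⟩) := by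
                rw [th_of_sat ha1, mk_one_mul]
            _ = act (act (g z'.1) ⟨z'.2.set, 1⟩) ⟨cl UU s.set, 1⟩ := (act_mul _ _ _).symm
            _ = act (act (c i) ⟨s.set, 1⟩) ⟨cl UU s.set, 1⟩ := by rw [← hE, ← hcact i hi]
            _ = act (c i) (⟨s.set, 1⟩ * ⟨cl UU s.set, 1⟩) := act_mul _ _ _
            _ = act (c i) ⟨cl UU s.set, 1⟩ := by rw [mk_one_mul, Set.union_comm, cl_union_self]
        refine ⟨⟨cl UU s.set, s.elt⟩, ⟨sat_cl _, by rw [hw]; exact ha2⟩, ?_⟩
        have h1 := stepΓ i i ⟨th UU s.set s.set, 1⟩ ⟨cl UU s.set, 1⟩ s ⟨sat_th _ _, h1M⟩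
          ⟨sat_cl _, h1M⟩ hA
        rw [hs0] at h1
        have h2 : (⟨cl UU s.set, 1⟩ : SpecialProd Ext) * s = ⟨cl UU s.set, s.elt⟩ := by
          have := mk_one_mul (cl UU s.set) s.set s.elt
          rw [cl_union_self] at this
          exact this
        rw [h2] at h1
        exact h1
      · have hUU' : z'.2.set = U ∪ z'.2.set := (Set.union_eq_self_of_subset_left hUz).symm
        have hB : act (c i) ⟨th UU s.set s.set, 1⟩ =
            act (g z'.1) (⟨U, Ext.e⟩ * ⟨th UU s.set z'.2.set, 1⟩) := by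
          calc act (c i) ⟨th UU s.set s.set, 1⟩
              = act (g z'.1) ⟨th UU s.set z'.2.set, 1⟩ := hθ'
            _ = act (g z'.1) (⟨U, 1⟩ * ⟨th UU s.set z'.2.set, 1⟩) := by
                rw [mk_one_mul, ← th_union hU, ← hUU']
            _ = act (act (g z'.1) ⟨U, 1⟩) ⟨th UU s.set z'.2.set, 1⟩ := (act_mul _ _ _).symm
            _ = act (act (g z'.1) ⟨U, Ext.e⟩) ⟨th UU s.set z'.2.set, 1⟩ := by rw [hUe]
            _ = act (g z'.1) (⟨U, Ext.e⟩ * ⟨th UU s.set z'.2.set, 1⟩) := act_mul _ _ _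
        have hne : ((⟨U, Ext.e⟩ : SpecialProd Ext) * ⟨th UU s.set z'.2.set, 1⟩).elt ≠ 1 := by
          rw [mul_elt]
          change Ext.e * (1 : Ext) ≠ 1
          rw [mul_one]
          exact e_ne_one
        have h3 : act (c i) ⟨th UU s.set s.set, 1⟩ = act (c i) ⟨th UU s.set s.set, Ext.e⟩ := by
          calc act (c i) ⟨th UU s.set s.set, 1⟩
              = act (g z'.1) (⟨U, Ext.e⟩ * ⟨th UU s.set z'.2.set, 1⟩) := hB
            _ = act (g z'.1) ((⟨U, Ext.e⟩ * ⟨th UU s.set z'.2.set, 1⟩) * ⟨∅, Ext.e⟩) := by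
                rw [mul_eps hne]
            _ = act (act (g z'.1) (⟨U, Ext.e⟩ * ⟨th UU s.set z'.2.set, 1⟩)) ⟨∅, Ext.e⟩ :=
                (act_mul _ _ _).symm
            _ = act (act (c i) ⟨th UU s.set s.set, 1⟩) ⟨∅, Ext.e⟩ := by rw [← hB]
            _ = act (c i) (⟨th UU s.set s.set, 1⟩ * ⟨∅, Ext.e⟩) := act_mul _ _ _
            _ = act (c i) ⟨th UU s.set s.set, Ext.e⟩ := by rw [mk_one_mul, Set.union_empty]
        have h1 := stepΓ i i ⟨th UU s.set s.set, 1⟩ ⟨th UU s.set s.set, Ext.e⟩ s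
          ⟨sat_th _ _, h1M⟩ ⟨sat_th _ _, heM⟩ h3
        rw [hs0] at h1
        refine ⟨_, ?_, h1⟩
        exact ⟨(sat_th _ _).union (himg _ heM e_ne_one _), hmulM _ heM e_ne_one _⟩
    · have h3 : act (c i) 1 = act (c i) ⟨∅, Ext.e⟩ := by
        rw [act_one]
        change act (g (al i)) (pp i) = act (act (g (al i)) (pp i)) ⟨∅, Ext.e⟩
        rw [act_mul, mul_eps hi]
      have hsat0 : Sat UU (∅ : Set Ext) := fun _ _ _ h => absurd h (Set.notMem_empty _)
      have h1 := stepΓ i i 1 ⟨∅, Ext.e⟩ s ⟨hsat0, h1M⟩ ⟨hsat0, heM⟩ h3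
      rw [one_mul] at h1
      refine ⟨_, ?_, h1⟩
      exact ⟨hsat0.union (himg _ heM e_ne_one _), hmulM _ heM e_ne_one _⟩
  have fin_case : ∀ (i j : Fin k) (s t : SpecialProd Ext), act (c i) s = act (c j) t →
      (∃ s0 ∈ T0, EqvGen (RStep Γ) (i, s) (i, s0)) →
      (∃ t0 ∈ T0, EqvGen (RStep Γ) (j, t) (j, t0)) → EqvGen (RStep Γ) (i, s) (j, t) := by
    rintro i j s t h ⟨s0, hs0, hs⟩ ⟨t0, ht0, ht⟩
    have h1 := sound _ _ hs
    have h2 := sound _ _ ht
    simp only at h1 h2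
    have h3 := stepΓ i j s0 t0 1 hs0 ht0 (by rw [← h1, ← h2, h])
    rw [mul_one, mul_one] at h3
    exact (hs.trans _ _ _ h3).trans _ _ _ ht.symm
  intro p q
  refine ⟨?_, sound p q⟩
  obtain ⟨i, s⟩ := p
  obtain ⟨j, t⟩ := q
  intro h
  change act (c i) s = act (c j) t at h
  have hz : EqvGen (RStep R) (al i, pp i * s) (al j, pp j * t) := by
    refine (hker _ _).1 ?_
    change act (g (al i)) (pp i * s) = act (g (al j)) (pp j * t)
    rw [← act_mul, ← act_mul]
    exact h
  rcases lemA _ _ hz with h1 | ⟨h1, h2⟩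
  · by_cases hi : (pp i).elt = 1
    · by_cases hj : (pp j).elt = 1
      · rw [hpis i hi, hpis j hj] at h1
        obtain ⟨hw, _, hθ⟩ := lemB _ _ h1
        simp only at hw hθ
        obtain ⟨S, w⟩ := s
        obtain ⟨S', w'⟩ := t
        simp only at hw hθ
        subst hw
        have hθ' : ∀ Y, act (c i) ⟨th UU Y S, 1⟩ = act (c j) ⟨th UU Y S', 1⟩ := by
          intro Y
          rw [hcact i hi, hcact j hj, ← th_union (hps i), ← th_union (hps j)]
          exact hθ Y
        have hS : th UU S S ∪ S = S := Set.union_eq_self_of_subset_left (th_self_subset _)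
        have hS' : th UU S' S' ∪ S' = S' := Set.union_eq_self_of_subset_left (th_self_subset _)
        have s1 := stepΓ i j ⟨th UU S S, 1⟩ ⟨th UU S S', 1⟩ ⟨S, w⟩ ⟨sat_th _ _, h1M⟩
          ⟨sat_th _ _, h1M⟩ (hθ' S)
        rw [mk_one_mul, mk_one_mul, hS, th_union_self] at s1
        have s2 := stepΓ i j ⟨th UU S' S, 1⟩ ⟨th UU S' S', 1⟩ ⟨S', w⟩ ⟨sat_th _ _, h1M⟩
          ⟨sat_th _ _, h1M⟩ (hθ' S')
        rw [mk_one_mul, mk_one_mul, hS', th_union_self, df_union, df_comm] at s2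
        have s3 := stepΓ i j ⟨th UU S S, 1⟩ ⟨th UU S S', 1⟩ ⟨df UU S S' ∪ S, w⟩ ⟨sat_th _ _, h1M⟩
          ⟨sat_th _ _, h1M⟩ (hθ' S)
        have u1 : th UU S S ∪ (df UU S S' ∪ S) = df UU S S' ∪ S :=
          Set.union_eq_self_of_subset_left
            ((th_self_subset _).trans Set.subset_union_right)
        have u2 : th UU S S' ∪ (df UU S S' ∪ S) = df UU S S' ∪ S := by
          rw [← th_union_self, ← Set.union_assoc, Set.union_self]
        rw [mk_one_mul, mk_one_mul, u1, u2] at s3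
        exact (s1.trans _ _ _ s3.symm).trans _ _ _ s2
      · have hg := hgoodne j t hj
        exact fin_case i j s t h (claimC i s ⟨_, h1, hg⟩) (claimC j t ⟨_, EqvGen.refl _, hg⟩)
    · have hg := hgoodne i s hi
      exact fin_case i j s t h (claimC i s ⟨_, EqvGen.refl _, hg⟩) (claimC j t ⟨_, h1.symm, hg⟩)
  · exact fin_case i j s t h (claimC i s h1) (claimC j t h2)

/-- The special semidirect product of the extended null monoid is right coherent. -/
theorem rightCoherent_ext : RightCoherent (SpecialProd Ext) := by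
  intro A _ hA B hB
  obtain ⟨n, g, R, hR, hgen, hker⟩ := hA
  obtain ⟨k, c, hBc⟩ := hB
  have hc : ∀ i, ∃ (a : Fin n) (s : (SpecialProd Ext)ᵐᵒᵖ), c i = s • g a := fun i => hgen (c i)
  choose al pp hpp using hc
  -- translation between the free acts of the monoid and of its opposite
  have step_iff : ∀ {m : ℕ} (R : Set ((Fin m × (SpecialProd Ext)ᵐᵒᵖ) ×
      (Fin m × (SpecialProd Ext)ᵐᵒᵖ))) (p q : Fin m × (SpecialProd Ext)ᵐᵒᵖ),
      ActCon R p q ↔ EqvGen (RStep {r | ((r.1.1, op r.1.2), (r.2.1, op r.2.2)) ∈ R})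
        (p.1, unop p.2) (q.1, unop q.2) := by
    intro m R p q
    constructor
    · intro h
      induction h with
      | rel x y hxy =>
        obtain ⟨r, hr, w, rfl, rfl⟩ := hxy
        exact EqvGen.rel _ _ ⟨((r.1.1, unop r.1.2), (r.2.1, unop r.2.2)), hr, unop w, rfl, rfl⟩
      | refl x => exact EqvGen.refl _
      | symm x y _ ih => exact ih.symm
      | trans x y z _ _ ih1 ih2 => exact ih1.trans _ _ _ ih2
    · intro h
      have key : ∀ p q : Fin m × SpecialProd Ext,
          EqvGen (RStep {r | ((r.1.1, op r.1.2), (r.2.1, op r.2.2)) ∈ R}) p q →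
            ActCon R (p.1, op p.2) (q.1, op q.2) := by
        intro p q h
        induction h with
        | rel x y hxy =>
          obtain ⟨r, hr, w, rfl, rfl⟩ := hxy
          exact EqvGen.rel _ _ ⟨((r.1.1, op r.1.2), (r.2.1, op r.2.2)), hr, op w, rfl, rfl⟩
        | refl x => exact EqvGen.refl _
        | symm x y _ ih => exact ih.symm
        | trans x y z _ _ ih1 ih2 => exact ih1.trans _ _ _ ih2
      exact key _ _ h
  have fin_pre : ∀ {m : ℕ} (R : Set ((Fin m × (SpecialProd Ext)ᵐᵒᵖ) ×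
      (Fin m × (SpecialProd Ext)ᵐᵒᵖ))), R.Finite →
      {r : (Fin m × SpecialProd Ext) × (Fin m × SpecialProd Ext) |
        ((r.1.1, op r.1.2), (r.2.1, op r.2.2)) ∈ R}.Finite := by
    intro m R hR
    refine Set.Finite.of_injOn (f := fun r : (Fin m × SpecialProd Ext) × (Fin m × SpecialProd Ext)
      => ((r.1.1, op r.1.2), (r.2.1, op r.2.2))) (fun r hr => hr) ?_ hR
    rintro ⟨⟨a, b⟩, ⟨a', b'⟩⟩ _ ⟨⟨d, e⟩, ⟨d', e'⟩⟩ _ h
    simp only [Prod.mk.injEq, op_inj] at h ⊢
    exact h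
  obtain ⟨Γ, hΓ, hΓk⟩ := main (fun a s => op s • a) (fun a => one_smul _ a)
    (fun a s t => by rw [smul_smul, ← op_mul]) g
    {r | ((r.1.1, op r.1.2), (r.2.1, op r.2.2)) ∈ R} (fin_pre R hR)
    (fun p q => (hker (p.1, op p.2) (q.1, op q.2)).trans
      (step_iff R (p.1, op p.2) (q.1, op q.2))) al (fun i => unop (pp i))
  have hcB : ∀ i, c i ∈ B := fun i => (hBc _).2 ⟨i, 1, by simp⟩
  refine ⟨k, fun i => ⟨c i, hcB i⟩,
    {r | ((r.1.1, unop r.1.2), (r.2.1, unop r.2.2)) ∈ Γ}, ?_, ?_, ?_⟩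
  · refine Set.Finite.of_injOn (f := fun r : (Fin k × (SpecialProd Ext)ᵐᵒᵖ) ×
      (Fin k × (SpecialProd Ext)ᵐᵒᵖ) => ((r.1.1, unop r.1.2), (r.2.1, unop r.2.2)))
      (fun r hr => hr) ?_ hΓ
    rintro ⟨⟨a, b⟩, ⟨a', b'⟩⟩ _ ⟨⟨d, e⟩, ⟨d', e'⟩⟩ _ h
    simp only [Prod.mk.injEq, unop_inj] at h ⊢
    exact h
  · rintro ⟨a, ha⟩
    obtain ⟨i, s, rfl⟩ := (hBc a).1 ha
    exact ⟨i, s, rfl⟩
  · intro p q
    rw [step_iff]
    have h1 := hΓk (p.1, unop p.2) (q.1, unop q.2)
    simp only [op_unop] at h1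
    have h2 : {r : (Fin k × SpecialProd Ext) × (Fin k × SpecialProd Ext) |
        ((r.1.1, op r.1.2), (r.2.1, op r.2.2)) ∈
          {r : (Fin k × (SpecialProd Ext)ᵐᵒᵖ) × (Fin k × (SpecialProd Ext)ᵐᵒᵖ) |
            ((r.1.1, unop r.1.2), (r.2.1, unop r.2.2)) ∈ Γ}} = Γ := by
      ext r
      simp
    rw [h2, ← h1, ← hpp, ← hpp]
    exact Subtype.ext_iff

end Main

/-- There are monoids `M` and `T` such that `S(M)` is neither left coherent nor right coherent,
`S(M)` embeds in `T`, and `T` is right coherent. -/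
theorem result : ∃ (M T : Type) (_ : Monoid M) (_ : Monoid T),
    ¬ LeftCoherent (SpecialProd M) ∧ ¬ RightCoherent (SpecialProd M) ∧
      (∃ f : SpecialProd M →* T, Function.Injective f) ∧ RightCoherent T :=
  ⟨Nul, SpecialProd Ext, inferInstance, inferInstance, not_leftCoherent, not_rightCoherent,
    ⟨inclHom, inclHom_injective⟩, rightCoherent_ext⟩

end Pool.Agent.Results.MP_811a2c_al.CoherentOvermonoid
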